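import Pool.Agent.Helper17.DT.Def

/-!
# S1: every derivation at an integral point is a combination of the given ones
-/

set_option autoImplicit false
set_option linter.unusedSectionVars false

open Polynomial Finset DirectSum

namespace Pool.Agent.Helper67.DT

open Pool.Agent.Helper766_CF Pool.Agent.Helper766_CG Pool.Agent.Helper766_CH
open Pool.Agent.Helper58.CS Pool.Agent.Helper58.OP Pool.Agent.Helper58.SH Pool.Agent.Helper58.BG
open Pool.Agent.Helper58.LC Pool.Agent.Helper58.NS Pool.Agent.Helper17.DT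

variable {R : Type} [CommRing R] [Algebra ℂ R] {𝒜 : ℕ → Submodule ℂ R} [GradedAlgebra 𝒜]
  {br : R →ₗ[ℂ] R →ₗ[ℂ] R} {k : Type} [Field k] [Algebra ℂ k]

/-- Frames with explicit coefficients at a point over a field. -/
lemma loc_frame (C : Core 𝒜 br) {κ : Type} [Field κ] [Algebra ℂ κ] {x : R →ₐ[ℂ] κ}
    (hx : EN 𝒜 x) : ∃ (N : ℕ) (b : Fin N → R) (e : Fin N → Fin N → R) (u : R), x u ≠ 0 ∧
      ∀ (T : Type) [CommRing T] [Algebra ℂ T] (y : R →ₐ[ℂ] T) (δ : R →ₗ[ℂ] T), IsDer y δ → ∀ r,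
        y u * δ r = ∑ i, (∑ j, y (e i j) * δ (b j)) * y (br (b i) r) := by
  set Z : Set R := {u | ∃ (N : ℕ) (b : Fin N → R) (e : Fin N → Fin N → R),
      ∀ (T : Type) [CommRing T] [Algebra ℂ T] (y : R →ₐ[ℂ] T) (δ : R →ₗ[ℂ] T), IsDer y δ → ∀ r,
        y u * δ r = ∑ i, (∑ j, y (e i j) * δ (b j)) * y (br (b i) r)} with hZ
  by_contra hcon
  have h0 : ∀ z ∈ Z, x z = 0 := by
    rintro u ⟨N, b, e, hu⟩
    by_contra h1
    exact hcon ⟨N, b, e, u, h1, hu⟩
  have hJ : Ideal.span Z ≤ RingHom.ker x := Ideal.span_le.2 h0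
  have h2 : ∀ k, 0 < k → ∀ a ∈ 𝒜 k, x a = 0 := by
    intro k hk a ha
    have h3 : a ∈ (Ideal.span Z).radical := by
      apply mem_radical C.fg
      intro p hp
      by_contra hpa
      have hv : ¬ IsVertex 𝒜 p := fun hv => hpa (hv k hk a ha)
      obtain ⟨N, b, e, u, hu, hu2⟩ := exists_loc' C hv
      exact hu (hp u (Ideal.subset_span ⟨N, b, e, hu2⟩))
    obtain ⟨m, hm⟩ := h3
    have h5 : x (a ^ m) = 0 := hJ hm
    rw [map_pow] at h5
    rcases Nat.eq_zero_or_pos m with rfl | hm0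
    · rw [pow_zero] at h5
      exact absurd h5 one_ne_zero
    · exact (pow_eq_zero_iff hm0.ne').1 h5
  have h6 : Ideal.span {t : κ | ∃ k : ℕ, 0 < k ∧ ∃ a ∈ 𝒜 k, x a = t} ≤ ⊥ := by
    rw [Ideal.span_le]
    rintro t ⟨k, hk, a, ha, rfl⟩
    exact h2 k hk a ha
  have h7 : (⊤ : Ideal κ) ≤ ⊥ := by
    have h8 : Ideal.span {t : κ | ∃ k : ℕ, 0 < k ∧ ∃ a ∈ 𝒜 k, x a = t} = ⊤ := hx
    rw [← h8]; exact h6
  exact one_ne_zero ((Ideal.mem_bot).1 (h7 (Submodule.mem_top : (1 : κ) ∈ (⊤ : Ideal κ))))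

/-- The image of a family which does not meet the vertex. -/
lemma en_map {S T : Type} [CommRing S] [Algebra ℂ S] [CommRing T] [Algebra ℂ T] {x : R →ₐ[ℂ] S}
    {y : R →ₐ[ℂ] T} (hx : EN 𝒜 x) (g : S →+* T) (h : ∀ r, y r = g (x r)) : EN 𝒜 y := by
  rw [EN, Ideal.eq_top_iff_one] at hx ⊢
  have h1 := Ideal.mem_map_of_mem g hx
  rw [map_one, Ideal.map_span] at h1
  refine Ideal.span_mono ?_ h1
  rintro _ ⟨_, ⟨d, hd, a, ha, rfl⟩, rfl⟩
  exact ⟨d, hd, a, ha, h a⟩

/-- Nakayama's lemma for Hamiltonian derivations along a point over a local ring. -/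
lemma key_local (C : Core 𝒜 br) {T : Type} [CommRing T] [Algebra ℂ T] {κ : Type} [Field κ]
    [Algebra ℂ κ] {res : T →+* κ} (hloc : ∀ t, res t ≠ 0 → IsUnit t) {y : R →ₐ[ℂ] T}
    {x : R →ₐ[ℂ] κ} (hxy : ∀ r, x r = res (y r)) (hx : EN 𝒜 x) {m : ℕ}
    {W : Fin m → R →ₗ[ℂ] T} (hW : ∀ l, IsDer y (W l))
    (hham : ∀ h, ∃ c : Fin m → T, ∀ r, res (y (br h r)) = res (∑ l, c l * W l r)) :
    ∃ (N : ℕ) (b : Fin N → R) (e : Fin N → Fin N → R) (u : R) (c : Fin N → Fin m → T),
      IsUnit (y u) ∧ (∀ (T : Type) [CommRing T] [Algebra ℂ T] (y : R →ₐ[ℂ] T) (δ : R →ₗ[ℂ] T),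
        IsDer y δ → ∀ r, y u * δ r = ∑ i, (∑ j, y (e i j) * δ (b j)) * y (br (b i) r)) ∧
      ∀ i r, y (br (b i) r) = ∑ l, c i l * W l r := by
  obtain ⟨N, b, e, u, hu, hfr⟩ := loc_frame C hx
  have hyu : IsUnit (y u) := hloc _ (by rw [← hxy]; exact hu)
  choose c hc using fun i => hham (b i)
  let η : Fin N → R →ₗ[ℂ] T := fun i => y.toLinearMap.comp (br (b i)) - ∑ l, c i l • W l
  have hη : ∀ i r, η i r = y (br (b i) r) - ∑ l, c i l * W l r := by
    intro i r
    simp [η, LinearMap.sum_apply]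
  have hηder : ∀ i, IsDer y (η i) := by
    intro i
    refine ⟨fun a a' => ?_⟩
    rw [hη, hη, hη, C.poisson.leibniz, map_add, map_mul, map_mul]
    have h1 : ∑ l, c i l * W l (a * a') =
        y a * ∑ l, c i l * W l a' + y a' * ∑ l, c i l * W l a := by
      rw [mul_sum, mul_sum, ← sum_add_distrib]
      exact sum_congr rfl fun l _ => by rw [(hW l).mul]; ring
    rw [h1]
    ring
  have hηres : ∀ i r, res (η i r) = 0 := by
    intro i r
    rw [hη, map_sub, hc, sub_self]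
  let A : Matrix (Fin N) (Fin N) T := Matrix.of fun i i' =>
    (if i = i' then y u else 0) - ∑ j, y (e i' j) * η i (b j)
  have hAv : ∀ i i', A i i' = (if i = i' then y u else 0) - ∑ j, y (e i' j) * η i (b j) :=
    fun _ _ => rfl
  have hA : ∀ i r, ∑ i', A i i' * y (br (b i') r) = y u * ∑ l, c i l * W l r := by
    intro i r
    have h1 := hfr T y (η i) (hηder i) r
    rw [hη i r] at h1
    have h2 : ∑ i', A i i' * y (br (b i') r) = y u * y (br (b i) r) -
        ∑ i', (∑ j, y (e i' j) * η i (b j)) * y (br (b i') r) := by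
      simp only [hAv, sub_mul, sum_sub_distrib, ite_mul, zero_mul, sum_ite_eq,
        mem_univ, if_true]
    rw [h2, ← h1]
    ring
  have hdet : IsUnit A.det := by
    apply hloc
    have h1 : (A.map res) = x u • (1 : Matrix (Fin N) (Fin N) κ) := by
      ext i i'
      rw [Matrix.map_apply, hAv, map_sub, map_sum, sum_eq_zero, sub_zero,
        Matrix.smul_apply, Matrix.one_apply]
      · split_ifs with h
        · rw [hxy, smul_eq_mul, mul_one]
        · rw [map_zero, smul_zero]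
      · intro j _
        rw [map_mul, hηres, mul_zero]
    have h2 : res A.det = (A.map res).det := by
      rw [RingHom.map_det]
      rfl
    rw [h2, h1, Matrix.det_smul, Matrix.det_one, mul_one]
    exact pow_ne_zero _ hu
  refine ⟨N, b, e, u, fun i l => ∑ i', A⁻¹ i i' * (y u * c i' l), hyu, hfr, ?_⟩
  intro i r
  have h1 : (A⁻¹ * A).mulVec (fun i' => y (br (b i') r)) i = y (br (b i) r) := by
    rw [Matrix.nonsing_inv_mul A hdet, Matrix.one_mulVec]
  rw [← h1, ← Matrix.mulVec_mulVec]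
  have h2 : A.mulVec (fun i' => y (br (b i') r)) = fun i => y u * ∑ l, c i l * W l r := by
    funext i
    exact hA i r
  rw [h2]
  change ∑ i', A⁻¹ i i' * (y u * ∑ l, c i' l * W l r) = _
  simp only [sum_mul, mul_sum]
  rw [sum_comm]
  exact sum_congr rfl fun l _ => sum_congr rfl fun i' _ => by ring

/-- S1 -/
theorem sub_int (C : Core 𝒜 br) {K : Type} [Field K] [Algebra ℂ K] (j : k →ₐ[ℂ] K)
    {f : R →ₐ[ℂ] k[X]} (hen : EN 𝒜 f) {m : ℕ} {V : Fin m → R →ₗ[ℂ] k[X]}
    (hham : ∀ h, ∃ p : Fin m → k[X], ∀ r, f (br h r) = ∑ i, p i * V i r)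
    {F : R →ₐ[ℂ] (PowerSeries K)[X]} {w : Fin m → R →ₗ[ℂ] (PowerSeries K)[X]}
    (hF : ∀ r i, PowerSeries.coeff 0 ((F r).coeff i) = j ((f r).coeff i))
    (hw : ∀ l r i, PowerSeries.coeff 0 ((w l r).coeff i) = j ((V l r).coeff i))
    (hder : ∀ l, IsDer F (w l)) {𝒱 : ValuationSubring (Kc K)}
    (h𝒱 : ∀ p, algebraMap (PowerSeries K) (Kc K) p ∈ 𝒱)
    (hε : 𝒱.valuation (algebraMap (PowerSeries K) (Kc K) PowerSeries.X) < 1) {lam : Kc K}
    (hlam : lam ∈ 𝒱) {δ : R →ₗ[ℂ] Kc K} (hδ : DerAt (toK F) lam δ) :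
    ∃ c : Fin m → Kc K, ∀ r, δ r =
      ∑ l, c l * ((w l r).map (algebraMap (PowerSeries K) (Kc K))).eval lam := by
  let ι : PowerSeries K →+* 𝒱 := (algebraMap (PowerSeries K) (Kc K)).codRestrict 𝒱.toSubring h𝒱
  have hιv : ∀ s, ((ι s : 𝒱) : Kc K) = algebraMap (PowerSeries K) (Kc K) s := fun s => rfl
  let _ : Algebra ℂ 𝒱 := (ι.comp (algebraMap ℂ (PowerSeries K))).toAlgebra
  have halg : ∀ c : ℂ, algebraMap ℂ 𝒱 c = ι (algebraMap ℂ (PowerSeries K) c) := fun c => rfl
  let κ := IsLocalRing.ResidueField 𝒱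
  let res : 𝒱 →+* κ := IsLocalRing.residue 𝒱
  let _ : Algebra ℂ κ := (res.comp (algebraMap ℂ 𝒱)).toAlgebra
  let lam' : 𝒱 := ⟨lam, hlam⟩
  let jκ : K →+* κ := res.comp (ι.comp PowerSeries.C)
  have hloc : ∀ t, res t ≠ 0 → IsUnit t := by
    intro t ht
    exact (IsLocalRing.residue_ne_zero_iff_isUnit t).1 ht
  have hresX : res (ι PowerSeries.X) = 0 := by
    change IsLocalRing.residue 𝒱 _ = 0
    rw [IsLocalRing.residue_eq_zero_iff]
    exact (𝒱.valuation_lt_one_iff _).2 hε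
  have hres : ∀ s, res (ι s) = jκ (PowerSeries.constantCoeff s) := by
    intro s
    have h1 : s = PowerSeries.C (PowerSeries.constantCoeff s) +
        (s - PowerSeries.C (PowerSeries.constantCoeff s)) := by ring
    have h2 : (PowerSeries.X : PowerSeries K) ∣ s - PowerSeries.C (PowerSeries.constantCoeff s) := by
      rw [PowerSeries.X_dvd_iff]
      simp
    obtain ⟨c, hc⟩ := h2
    rw [hc] at h1
    conv_lhs => rw [h1]
    rw [map_add, map_add, map_mul, map_mul, hresX, zero_mul, add_zero]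
    rfl
  -- evaluation over the valuation ring
  let E₀ : (PowerSeries K)[X] →+* 𝒱 := Polynomial.eval₂RingHom ι lam'
  let E : (PowerSeries K)[X] →ₐ[ℂ] 𝒱 :=
    { E₀ with
      commutes' := fun c => by
        change Polynomial.eval₂ ι lam' (algebraMap ℂ (PowerSeries K)[X] c) = _
        rw [Polynomial.algebraMap_apply, Polynomial.eval₂_C]
        rfl }
  have hEv : ∀ P, ((E P : 𝒱) : Kc K) =
      (P.map (algebraMap (PowerSeries K) (Kc K))).eval lam := by
    intro P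
    rw [Polynomial.eval_map]
    exact Polynomial.hom_eval₂ P ι 𝒱.subtype lam'
  let ev : k[X] →+* κ := Polynomial.eval₂RingHom (jκ.comp (j : k →+* K)) (res lam')
  have hev : ∀ (P : (PowerSeries K)[X]) (Q : k[X]),
      (∀ i, PowerSeries.coeff 0 (P.coeff i) = j (Q.coeff i)) → res (E P) = ev Q := by
    intro P Q hPQ
    have h1 : P.map (PowerSeries.constantCoeff (R := K)) = Q.map (j : k →+* K) := by
      ext i
      rw [Polynomial.coeff_map, Polynomial.coeff_map,
        ← PowerSeries.coeff_zero_eq_constantCoeff_apply]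
      exact hPQ i
    have h2 : res (E P) = Polynomial.eval₂ (res.comp ι) (res lam') P :=
      Polynomial.hom_eval₂ P ι res lam'
    have h3 : res.comp ι = jκ.comp (PowerSeries.constantCoeff (R := K)) := RingHom.ext hres
    rw [h2, h3, ← Polynomial.eval₂_map, h1, Polynomial.eval₂_map]
    rfl
  let y : R →ₐ[ℂ] 𝒱 := E.comp F
  let W : Fin m → R →ₗ[ℂ] 𝒱 := fun l => E.toLinearMap.comp (w l)
  have hW : ∀ l, IsDer y (W l) := by
    intro l
    refine ⟨fun a b => ?_⟩
    change E (w l (a * b)) = E (F a) * E (w l b) + E (F b) * E (w l a)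
    rw [(hder l).mul, map_add, map_mul, map_mul]
  let x : R →ₐ[ℂ] κ :=
    { res.comp (y : R →+* 𝒱) with
      commutes' := fun c => by
        change res (y (algebraMap ℂ R c)) = _
        rw [AlgHom.commutes]
        rfl }
  have hxy : ∀ r, x r = res (y r) := fun r => rfl
  have hx : EN 𝒜 x := en_map hen ev fun r => hev _ _ (hF r)
  have hsurj : ∀ t : κ, ∃ v : 𝒱, res v = t := IsLocalRing.residue_surjective
  obtain ⟨N, b, e, u, c, hu, hfr, hc⟩ := key_local C hloc hxy hx hW (by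
    intro h
    obtain ⟨p, hp⟩ := hham h
    choose c hc using fun i => hsurj (ev (p i))
    refine ⟨c, fun r => ?_⟩
    have h1 : res (y (br h r)) = ev (f (br h r)) := hev _ _ (hF _)
    rw [h1, hp, map_sum, map_sum]
    refine sum_congr rfl fun l _ => ?_
    rw [map_mul, map_mul, hc]
    congr 1
    exact (hev _ _ (hw l r)).symm)
  -- over the field
  let ev1 : (Kc K)[X] →+* Kc K := Polynomial.evalRingHom lam
  let yK : R →ₐ[ℂ] Kc K := ((Polynomial.aeval lam).restrictScalars ℂ).comp (toK F)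
  have hyK : ∀ r, yK r = ((F r).map (algebraMap (PowerSeries K) (Kc K))).eval lam := by
    intro r
    change Polynomial.aeval lam _ = _
    rw [Polynomial.coe_aeval_eq_eval]
    rfl
  have hyKy : ∀ r, yK r = ((y r : 𝒱) : Kc K) := fun r => (hyK r).trans (hEv _).symm
  have hδ' : IsDer yK δ := ⟨fun a b => by
    rw [hδ a b, hyK, hyK]
    rfl⟩
  have hne : yK u ≠ 0 := by
    rw [hyKy]
    intro h
    have h1 : y u = 0 := Subtype.ext h
    rw [h1] at hu
    exact not_isUnit_zero hu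
  refine ⟨fun l => ∑ i, (yK u)⁻¹ * (∑ j, yK (e i j) * δ (b j)) * ((c i l : 𝒱) : Kc K), fun r => ?_⟩
  have h1 := hfr (Kc K) yK δ hδ' r
  have h2 : δ r = (yK u)⁻¹ * (yK u * δ r) := by
    rw [← mul_assoc, inv_mul_cancel₀ hne, one_mul]
  rw [h2, h1, mul_sum]
  have h3 : ∀ i, yK (br (b i) r) = ∑ l, ((c i l : 𝒱) : Kc K) *
      ((w l r).map (algebraMap (PowerSeries K) (Kc K))).eval lam := by
    intro i
    rw [hyKy, hc i r, AddSubmonoidClass.coe_finsetSum]
    refine sum_congr rfl fun l _ => ?_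
    rw [← hEv]
    rfl
  simp only [h3, sum_mul, mul_sum]
  rw [sum_comm]
  exact sum_congr rfl fun l _ => sum_congr rfl fun i _ => sum_congr rfl fun i' _ => by ring

end Pool.Agent.Helper67.DT
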